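import Pool.Agent.Q74.BT.FinP

/-!
# The constant `γ_RRW` in all short intervals

The descent time of `n` by the factor `X` is the first `k` with `T^k n ≤ n / X`. With `γ` the constant of the repeated
random walk model of Lagarias and Weiss (`γ g(1/γ) = 1`, `γ = 41.677...`):

* every interval of `H ≥ C X` integers `≥ X^30` has at least `H X^(-α g(1/α) - ε)` elements whose descent time is
  `(α ± ε) log X`, for each `α` between `1/log 2` and `γ` (lower large deviation law in EVERY interval);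
* for `α ≥ 2/log(4/3)` the proportion of the integers with descent time `> α log X` is at most `C X^(-α g(1/α))` in every
  interval of length at least `2^(α log X)`, so the exponent is exact;
* every interval of `C X` positive integers contains an integer with descent time `> (γ-ε) log X`;
  but in all but a proportion `C X^(-c)` of the intervals of length `C' X` all descent times are `≤ (γ+ε) log X`.

So the maximum of the descent times by the factor `X` over an interval of `C X` integers is asymptotic to `γ_RRW log X` for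
almost all intervals, and the lower bound holds for every interval. The conjecture on the scaled stopping time constant is the
analogous statement for the interval `[1, X]`.
-/

set_option autoImplicit false

namespace Pool.Agent.Results.MP_f7abf1_nt.AllShortIntervals

/-- The `3x+1` function. -/
def T (n : ℕ) : ℕ := if n % 2 = 0 then n / 2 else (3 * n + 1) / 2

/-- `k` is the first time at which the trajectory of `n` is at most `n / X`. -/
def IsDescentTime (X n k : ℕ) : Prop := IsLeast {k : ℕ | X * T^[k] n ≤ n} k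

/-- The trajectory of `n` is greater than `n / X` up to the time `s`. -/
def StaysAbove (X : ℕ) (s : ℝ) (n : ℕ) : Prop := ∀ k : ℕ, (k : ℝ) ≤ s → n < X * T^[k] n

/-- `g(a) = sup_θ (θ a - log (½ (2^θ + (2/3)^θ)))`. -/
noncomputable def g (a : ℝ) : ℝ :=
  ⨆ θ : ℝ, (θ * a - Real.log ((1 / 2) * ((2 : ℝ) ^ θ + (2 / 3 : ℝ) ^ θ)))

theorem result : ∃ γ : ℝ, 41.6776 < γ ∧ γ < 41.6777 ∧
    γ * g (1 / γ) = 1 ∧ (∀ γ' : ℝ, γ' > ((1 / 2) * Real.log (4 / 3))⁻¹ → γ' * g (1 / γ') = 1 → γ' = γ) ∧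
    -- large deviation law from below, in every interval
    (∀ α : ℝ, 1 / Real.log 2 < α → α < γ → 0 < 1 - α * g (1 / α) ∧ ∀ ε : ℝ, 0 < ε → ∃ C : ℝ, 0 < C ∧
      ∀ X H m : ℕ, C ≤ X → C * X ≤ H → X ^ 30 ≤ m →
        (H : ℝ) * (X : ℝ) ^ (-(α * g (1 / α)) - ε) ≤ ({n : ℕ | m ≤ n ∧ n < m + H ∧
          ∃ k : ℕ, IsDescentTime X n k ∧ |(k : ℝ) - α * Real.log X| ≤ ε * Real.log X}.ncard : ℝ)) ∧
    (∀ α : ℝ, 2 / Real.log (4 / 3) ≤ α → α < γ → ∀ ε : ℝ, 0 < ε → ∃ C : ℝ, 0 < C ∧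
      ∀ X H m : ℕ, C ≤ X → C * X ≤ H → 1 ≤ m →
        (H : ℝ) * (X : ℝ) ^ (-(α * g (1 / α)) - ε) ≤
          ({n : ℕ | m ≤ n ∧ n < m + H ∧ StaysAbove X (α * Real.log X) n}.ncard : ℝ)) ∧
    -- upper bound
    (∀ α : ℝ, 2 / Real.log (4 / 3) ≤ α → ∃ C : ℝ, 0 < C ∧ ∀ X : ℕ, 2 ≤ X →
      ∀ m H : ℕ, (2 : ℝ) ^ (α * Real.log X) ≤ m → (2 : ℝ) ^ (α * Real.log X) ≤ H →
        ({n : ℕ | m ≤ n ∧ n < m + H ∧ StaysAbove X (α * Real.log X) n}.ncard : ℝ) ≤
          C * H * (X : ℝ) ^ (-(α * g (1 / α)))) ∧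
    -- the maximum over an interval: every interval
    (∀ ε : ℝ, 0 < ε → ∃ C : ℝ, 0 < C ∧ ∀ X H m : ℕ, C ≤ X → C * X ≤ H → 1 ≤ m →
      ∃ n : ℕ, m ≤ n ∧ n < m + H ∧ StaysAbove X ((γ - ε) * Real.log X) n) ∧
    -- almost all intervals `[m, m + H)`, `M ≤ m < M + W`
    (∀ ε : ℝ, 0 < ε → ∃ c C : ℝ, 0 < c ∧ 0 < C ∧
      ∀ X H : ℕ, 2 ≤ X → ∀ M W : ℕ, (2 : ℝ) ^ ((γ + ε) * Real.log X) ≤ M →
        (2 : ℝ) ^ ((γ + ε) * Real.log X) ≤ W →
        ({m : ℕ | M ≤ m ∧ m < M + W ∧ ∃ n : ℕ, m ≤ n ∧ n < m + H ∧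
          StaysAbove X ((γ + ε) * Real.log X) n}.ncard : ℝ) ≤ C * W * H / (X : ℝ) ^ (1 + c)) := by
  obtain ⟨γ, hγ, _, h1, h2⟩ := Pool.Agent.Q74.BT.exists_IsG
  exact ⟨γ, hγ.1, hγ.2.1, h1, h2, Pool.Agent.Q74.BT.finP Pool.Agent.Q176.BT.bm hγ⟩

end Pool.Agent.Results.MP_f7abf1_nt.AllShortIntervals
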