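import Pool.Agent.Q74.BT.FinA
import Pool.Agent.Q153.BT.Kap
import Pool.Agent.Q150.BT.Mean
import Pool.Agent.Q195.BT.Blk
import Pool.Agent.Q195.BT.Sim
import Pool.Agent.Q209.BT.Low
import Pool.Agent.Q151.BT.MeanW

/-!
# The coalescence constant of the 3x+1 map is `γ_RRW = 41.677...`

`T x = x / 2`, `(3 x + 1) / 2` on the integers, `values L t n` = number of different values of `T^t` on the block of
consecutive integers `n, n+1, ..., n+L-1`. Let `γ` be the constant of the repeated random walk model of Lagarias and Weiss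
(`γ g(1/γ) = 1`; conjecturally the limsup of the scaled total stopping times `σ_∞(n)/log n`).

* EVERY block of `L` consecutive integers, anywhere on the line, has at least `c L exp (-(1/γ+ε) t)` values at time `t`.
* In the mean over the blocks of an interval there are at most `C (1 + t + L exp (-(1/γ-ε) t))` values.
* So the number of values is `L^(1-t/(γ log L)+o(1))` until the time `γ log L`; for all times `t ≥ (γ+ε) log L` the mean number of
  values is between `1 + c log L/√t` and `1 + C log L/√t`: a block of `L` consecutive integers has coalesced exactly at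
  the time `γ_RRW log L`, up to the slow coalescence of the remaining trajectories near each other.
* The upper bound holds for all lengths `L ≥ L₀` and all times simultaneously, except for a proportion `C L₀^(-δ)` of the blocks.

For the block `1, 2, ..., L` the analogous upper bound would be a weak form of the conjecture that the scaled stopping time
constant is `γ_RRW`.

Proof. Upper bound: the offsets `w` of the trajectories of the block against the main line move by `w/2` or `(3w+1)/2`; the potential
`∑ (1+w)^η` over the DIFFERENT forms has mean factor `(2^(-η) + (3/2)^η)/2` away from `0`, while near `0` there are few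
different integers; the optimum over `η` is the Legendre transform defining `γ`. Lower bound: quenched = annealed for the
backward trees (starting library): from every integer prime to 3 there are backward paths with the critical frequency of odd
steps, in blocks of a fixed length, so that the growth is controlled uniformly.
-/

set_option autoImplicit false

namespace Pool.Agent.Results.MP_f7abf1_nt.CoalescenceConstant

open Finset

/-- the 3x+1 map on the integers -/
def T (x : ℤ) : ℤ := if x % 2 = 0 then x / 2 else (3 * x + 1) / 2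

/-- the number of different integers among `T^t n, T^t (n+1), ..., T^t (n+L-1)` -/
noncomputable def values (L t : ℕ) (n : ℤ) : ℕ := {y : ℤ | ∃ j : ℕ, j < L ∧ y = T^[t] (n + j)}.ncard

/-- `g(a) = sup_θ (θ a - log (½ (2^θ + (2/3)^θ)))`, the rate function of the repeated random walk model -/
noncomputable def g (a : ℝ) : ℝ :=
  ⨆ θ : ℝ, (θ * a - Real.log ((1 / 2) * ((2 : ℝ) ^ θ + (2 / 3 : ℝ) ^ θ)))

theorem result : ∃ γ : ℝ, 41.6776 < γ ∧ γ < 41.6777 ∧
    γ * g (1 / γ) = 1 ∧ (∀ γ' : ℝ, γ' > ((1 / 2) * Real.log (4 / 3))⁻¹ → γ' * g (1 / γ') = 1 → γ' = γ) ∧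
    (∀ ε : ℝ, 0 < ε → ∃ c C δ : ℝ, 0 < c ∧ 0 < C ∧ 0 < δ ∧
      -- every block has many values
      (∀ (L t : ℕ) (n : ℤ), 1 ≤ L → c * L * Real.exp (-((1 / γ + ε) * t)) ≤ values L t n) ∧
      -- the mean number of values
      (∀ L t : ℕ, 1 ≤ L → ∀ (M : ℤ) (W : ℕ), 2 ^ t ≤ W →
        ∑ n ∈ Ico M (M + W), (values L t n : ℝ) ≤ C * (1 + t + L * Real.exp (-((1 / γ - ε) * t))) * W) ∧
      -- after the time γ log L
      (∀ L t : ℕ, 3 ≤ L → (γ + ε) * Real.log L ≤ t → ∀ (M : ℤ) (W : ℕ), 64 * t * 2 ^ t ≤ W →
        (1 + c * (Real.log L / √t)) * W ≤ ∑ n ∈ Ico M (M + W), (values L t n : ℝ) ∧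
        ∑ n ∈ Ico M (M + W), (values L t n : ℝ) ≤ (1 + C * (Real.log L / √t)) * W) ∧
      -- all lengths and times at once
      (∀ L₀ : ℕ, 1 ≤ L₀ → ∀ (M : ℤ) (W : ℕ),
        ({n : ℤ | M ≤ n ∧ n < M + W ∧ ∃ L t : ℕ, L₀ ≤ L ∧ 2 ^ t ≤ W ∧
          (L : ℝ) ^ ε * (1 + L * Real.exp (-(t / γ))) < values L t n}.ncard : ℝ) ≤ C * W / (L₀ : ℝ) ^ δ)) :=
  have hkap := Pool.Agent.Q153.BT.kap
  have hpot := Pool.Agent.Q150.BT.pot
  have hcnt := Pool.Agent.Q150.BT.cnt hpot
  have hmean := Pool.Agent.Q150.BT.mean hkap hpot Pool.Agent.Q150.BT.tree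
  have hupW := Pool.Agent.Q150.BT.upW hkap hcnt
  Pool.Agent.Q74.BT.finA (_root_.Q209.BT.lowAll Pool.Agent.Q195.BT.blk) hupW (Pool.Agent.Q151.BT.meanW hmean)
    (Pool.Agent.Q195.BT.sim hupW)

end Pool.Agent.Results.MP_f7abf1_nt.CoalescenceConstant
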