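import Pool.Agent.Results.MP_f7abf1_nt.NormalLaw
import Pool.Agent.Q138.PS.UD

/-!
# Scaled total stopping times of the numbers `⌊α P(n)⌋`

Let `q ≥ 2`. Outside a set of real numbers of Hausdorff dimension at most `q / (q + 1 / (q 2 ^ (q - 1)))` (that is
`8 / 9` for `q = 2`) every `α > 0` has the following property: for the integral polynomials `P` of degree `q` the scaled total
stopping times of the numbers `⌊α P(n)⌋` have the same normal limit law as those of all integers, jointly with the residues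
of the number, of its total stopping time and of the number of odd terms, uniformly in `P`.
-/

set_option autoImplicit false

namespace Pool.Agent.Results.MP_f7abf1_nt.NormalLawRealMultiples

open Finset Filter Topology
open Pool.Agent.Q138.PS
open Pool.Agent.Results.MP_f7abf1_nt.NormalLaw (T IsTotalStoppingTime odds bound Phi)

/-- the trajectory of `n` reaches `1` -/
def Reach (n : ℕ) : Prop := ∃ k, T^[k] n = 1

/-- `n` is `≡ r` modulo `Q`, its scaled total stopping time is finite and at most `bound x n`, its total stopping time is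
`≡ a` and the number of odd terms before `1` is `≡ b` modulo `m` -/
def Level (m : ℕ) (a b : ℤ) (Q r : ℕ) (x : ℝ) (n : ℕ) : Prop :=
  n % Q = r % Q ∧ ∃ t : ℕ, (t : ℝ) / Real.log n ≤ bound x n ∧ IsTotalStoppingTime n t ∧
    (t : ℤ) ≡ a [ZMOD m] ∧ (odds t n : ℤ) ≡ b [ZMOD m]

theorem bound_mono (n : ℕ) {x y : ℝ} (h : x ≤ y) : bound x n ≤ bound y n := by
  unfold bound
  have h3 : 0 ≤ Real.log 3 := Real.log_nonneg (by norm_num)
  have : 0 ≤ Real.log 3 * Real.sqrt (2 / (Real.log (4 / 3) ^ 3 * Real.log n)) := by positivity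
  nlinarith

theorem phi_cont : Continuous Phi := by
  have : Phi = Pool.Agent.H499R2.ND.Phi := by
    funext x
    unfold Phi
    rw [← Pool.Agent.H499R2.ND.phi_cdf]
  rw [this]
  exact Pool.Agent.H499R2.ND.Phi_continuous

/-- **Theorem.** Let `δ > 0` be the natural density of the integers with finite total stopping time (`δ = 1` if and only if
all are of this kind). For each `q ≥ 2` there is a set `E` of Hausdorff dimension at most `q / (q + 1 / (q 2 ^ (q - 1)))`
such that for each `α > 0` outside `E`: the proportion of the `n ≤ N` for which `⌊α P(n)⌋` reaches `1` tends to `δ`, and for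
all `m, Q ≥ 1`, `a`, `b`, `r` and every real `x` the proportion of those for which `⌊α P(n)⌋` has the property `Level` tends
to `δ Phi(x) / (m ^ 2 Q)`, uniformly in `P ∈ ℤ[X]` of degree `q` with positive leading coefficient and coefficients of size at
most `N ^ η`. -/
theorem result : ∃ δ : ℝ, 0 < δ ∧ δ ≤ 1 ∧ (δ = 1 ↔ ∀ n : ℕ, 1 ≤ n → Reach n) ∧
    ∀ q : ℕ, 2 ≤ q → ∃ E : Set ℝ, dimH E ≤ ENNReal.ofReal (q / (q + 1 / ((q : ℝ) * 2 ^ (q - 1)))) ∧
      ∀ α : ℝ, 0 < α → α ∉ E → Along q α Reach δ ∧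
        ∀ (m : ℕ) (a b : ℤ) (Q r : ℕ), 1 ≤ m → 1 ≤ Q → ∀ x : ℝ,
          Along q α (Level m a b Q r x) (δ * Phi x / (m ^ 2 * Q)) := by
  obtain ⟨δ, h0, h1, h2, h3, h4⟩ := Pool.Agent.Results.MP_f7abf1_nt.NormalLaw.result
  refine ⟨δ, h0, h1, h2, fun q hq => ?_⟩
  obtain ⟨E1, hE1, g1⟩ := along_nat q hq (fun _ : Unit => Reach) (fun _ => δ) (fun _ => dn_of h3)
  obtain ⟨E2, hE2, g2⟩ := along_real (ι := ℕ × ℤ × ℤ × ℕ × ℕ) q hq
    (fun k x => Level (k.1 + 1) k.2.1 k.2.2.1 (k.2.2.2.1 + 1) k.2.2.2.2 x)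
    (fun k x => δ * Phi x / (((k.1 + 1 : ℕ) : ℝ) ^ 2 * ((k.2.2.2.1 + 1 : ℕ) : ℝ)))
    (fun k x x' n hx hn => by
      obtain ⟨e1, t, e2, e3⟩ := hn
      exact ⟨e1, t, e2.trans (bound_mono n hx), e3⟩)
    (fun k => (phi_cont.const_mul δ).div_const _)
    (fun k x => dn_of (h4 (k.1 + 1) k.2.1 k.2.2.1 (by omega) (k.2.2.2.1 + 1) k.2.2.2.2 (by omega) x))
  refine ⟨E1 ∪ E2, ?_, fun α hα hαE => ⟨g1 α hα (fun h => hαE (Or.inl h)) (), fun m a b Q r hm hQ x => ?_⟩⟩
  · rw [dimH_union]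
    exact max_le hE1 hE2
  · obtain ⟨m, rfl⟩ : ∃ m', m = m' + 1 := ⟨m - 1, by omega⟩
    obtain ⟨Q, rfl⟩ : ∃ Q', Q = Q' + 1 := ⟨Q - 1, by omega⟩
    exact g2 α hα (fun h => hαE (Or.inr h)) (m, a, b, Q, r) x

end Pool.Agent.Results.MP_f7abf1_nt.NormalLawRealMultiples
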